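import Pool.Agent.FPO.Main

/-!
# MP_211e2c_nt: the leading form of an enumerating polynomial of degree at least three

`sector α` is the set `P_α` of lattice points `(x, y)` with `x ≥ 0` and `0 ≤ y ≤ α x`, and
`Enumerates f α` says that the real polynomial `f` maps `P_α` bijectively onto the set of
nonnegative integers.  `minForm t` is the form `x^m p(y/x)` in two variables, where `p` is the
minimal polynomial of the algebraic number `t` over `ℚ` and `m` its degree.
-/

set_option autoImplicit false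

open Polynomial

namespace Pool.Agent.Results.MP_211e2c_nt.LeadingForm

/-- The lattice points of the sector between the positive `x`-axis and the line `y = α x`. -/
def sector (α : ℝ) : Set (ℤ × ℤ) :=
  {v | 0 ≤ v.1 ∧ 0 ≤ v.2 ∧ (v.2 : ℝ) ≤ α * (v.1 : ℝ)}

/-- The polynomial `f` restricts to a bijection of `P_α` onto the nonnegative integers. -/
def Enumerates (f : MvPolynomial (Fin 2) ℝ) (α : ℝ) : Prop :=
  Set.BijOn (fun v : ℤ × ℤ => MvPolynomial.eval ![(v.1 : ℝ), (v.2 : ℝ)] f) (sector α)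
    (Set.range fun m : ℕ => (m : ℝ))

/-- The form `x^m p(y/x)` where `p` is the minimal polynomial of `t` over `ℚ`, `m = deg p`. -/
noncomputable def minForm (t : ℝ) : MvPolynomial (Fin 2) ℝ :=
  ∑ j ∈ Finset.range ((minpoly ℚ t).natDegree + 1),
    MvPolynomial.C (((minpoly ℚ t).coeff j : ℚ) : ℝ) *
      MvPolynomial.X 0 ^ ((minpoly ℚ t).natDegree - j) * MvPolynomial.X 1 ^ j

open Pool.Agent.FPO in
theorem map_homF (t : ℝ) :
    MvPolynomial.map (algebraMap ℚ ℝ) (homF (minpoly ℚ t)) = minForm t := by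
  rw [homF, minForm, map_sum]
  refine Finset.sum_congr rfl fun j _ => ?_
  simp

open Pool.Agent.FPO in
/-- Let `α > 0` be real and let `f` be a real polynomial of total degree `d ≥ 3` that enumerates
`P_α`.  Then the homogeneous part of `f` of highest degree is a constant times a power of one
irreducible form: there is an algebraic number `t₀` in `[0, α]` such that this part is
`c * (minForm t₀)^s`, with `d = s * deg t₀`; moreover `s` is even, except possibly when
`t₀ = α` is irrational. -/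
theorem result : ∀ (α : ℝ), 0 < α → ∀ f : MvPolynomial (Fin 2) ℝ, Enumerates f α →
    3 ≤ f.totalDegree →
      ∃ t₀ : ℝ, 0 ≤ t₀ ∧ t₀ ≤ α ∧ IsAlgebraic ℚ t₀ ∧ ∃ (c : ℝ) (s : ℕ),
        f.totalDegree = s * (minpoly ℚ t₀).natDegree ∧
        MvPolynomial.homogeneousComponent f.totalDegree f =
          MvPolynomial.C c * minForm t₀ ^ s ∧
        (Even s ∨ (t₀ = α ∧ Irrational α)) := by
  intro α hα f hf hd
  have hint : ∀ v ∈ sec α, ∃ n : ℤ, MvPolynomial.eval ![(v.1 : ℝ), (v.2 : ℝ)] f = n := by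
    intro v hv
    obtain ⟨m, hm⟩ := hf.mapsTo (show v ∈ sector α from hv)
    refine ⟨m, ?_⟩
    have hm' : (m : ℝ) = MvPolynomial.eval ![(v.1 : ℝ), (v.2 : ℝ)] f := hm
    rw [← hm']
    simp
  obtain ⟨F₀, rfl⟩ := ratl α hα f hint
  have hval : ∀ v : ℤ × ℤ, MvPolynomial.eval ![(v.1 : ℝ), (v.2 : ℝ)]
      (MvPolynomial.map (algebraMap ℚ ℝ) F₀) = ((evz F₀ v : ℚ) : ℝ) := by
    intro v
    have h1 := MvPolynomial.eval₂_comp_left (algebraMap ℚ ℝ) (RingHom.id ℚ)
      ![(v.1 : ℚ), (v.2 : ℚ)] F₀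
    rw [MvPolynomial.eval_map, evz, MvPolynomial.eval]
    have h2 : (algebraMap ℚ ℝ) ∘ ![(v.1 : ℚ), (v.2 : ℚ)] = ![(v.1 : ℝ), (v.2 : ℝ)] := by
      funext i
      fin_cases i <;> simp
    rw [h2, RingHom.comp_id] at h1
    rw [← h1]
    rfl
  have hE : Enum (sec α) F₀ := by
    refine ⟨fun u hu => ?_, fun u hu v hv huv => ?_, fun n => ?_⟩
    · obtain ⟨m, hm⟩ := hf.mapsTo (show u ∈ sector α from hu)
      have hm' : (m : ℝ) = ((evz F₀ u : ℚ) : ℝ) := hm.trans (hval u)
      exact ⟨m, by exact_mod_cast hm'.symm⟩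
    · refine hf.injOn (show u ∈ sector α from hu) (show v ∈ sector α from hv) ?_
      rw [hval, hval, huv]
    · obtain ⟨u, hu, hun⟩ := hf.surjOn ⟨n, rfl⟩
      have hun' : ((evz F₀ u : ℚ) : ℝ) = (n : ℝ) := (hval u).symm.trans hun
      exact ⟨u, hu, by exact_mod_cast hun'⟩
  have htd : (MvPolynomial.map (algebraMap ℚ ℝ) F₀).totalDegree = F₀.totalDegree := by
    rw [MvPolynomial.totalDegree, MvPolynomial.totalDegree,
      MvPolynomial.support_map_of_injective _ (algebraMap ℚ ℝ).injective]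
  rw [htd] at hd ⊢
  obtain ⟨t₀, h1, h2, h3, c, s, h4, h5, h6⟩ := main_rat α hα F₀ hE hd
  refine ⟨t₀, h1, h2, h3, (c : ℝ), s, h4, ?_, h6⟩
  have h7 : MvPolynomial.homogeneousComponent F₀.totalDegree
      (MvPolynomial.map (algebraMap ℚ ℝ) F₀) = MvPolynomial.map (algebraMap ℚ ℝ) (hc F₀) := by
    ext m
    rw [MvPolynomial.coeff_homogeneousComponent, MvPolynomial.coeff_map, MvPolynomial.coeff_map,
      hc, MvPolynomial.coeff_homogeneousComponent]
    split_ifs <;> simp
  rw [h7, h5, map_mul, map_pow, map_homF, MvPolynomial.map_C]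
  rfl

end Pool.Agent.Results.MP_211e2c_nt.LeadingForm
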