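import Pool.Agent.Pack.Grow3

/-!
# MP_211e2c_nt: enumerating polynomials of degree at least three

`sector α` is the set `P_α` of lattice points `(x, y)` with `x ≥ 0` and `0 ≤ y ≤ α x`, and
`Enumerates f α` says that the real polynomial `f` maps `P_α` bijectively onto the set of
nonnegative integers.
-/

set_option autoImplicit false

open Polynomial Filter

namespace Pool.Agent.Results.MP_211e2c_nt.LinearGrowth

/-- The lattice points of the sector between the positive `x`-axis and the line `y = α x`. -/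
def sector (α : ℝ) : Set (ℤ × ℤ) :=
  {v | 0 ≤ v.1 ∧ 0 ≤ v.2 ∧ (v.2 : ℝ) ≤ α * (v.1 : ℝ)}

/-- The polynomial `f` restricts to a bijection of `P_α` onto the nonnegative integers. -/
def Enumerates (f : MvPolynomial (Fin 2) ℝ) (α : ℝ) : Prop :=
  Set.BijOn (fun v : ℤ × ℤ => MvPolynomial.eval ![(v.1 : ℝ), (v.2 : ℝ)] f) (sector α)
    (Set.range fun m : ℕ => (m : ℝ))

/-- The polynomial `s ↦ f(s, t s)` in one variable. -/
noncomputable def alongRay (f : MvPolynomial (Fin 2) ℝ) (t : ℝ) : ℝ[X] :=
  MvPolynomial.aeval ![(X : ℝ[X]), C t * X] f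

theorem alongRay_eval (f : MvPolynomial (Fin 2) ℝ) (t s : ℝ) :
    (alongRay f t).eval s = MvPolynomial.eval ![s, t * s] f := by
  rw [alongRay, ← coe_evalRingHom, MvPolynomial.map_aeval, MvPolynomial.coe_eval₂Hom]
  have h1 : (evalRingHom s).comp (algebraMap ℝ ℝ[X]) = RingHom.id ℝ := by
    ext x
    simp
  have h2 : (fun i => (evalRingHom s) (![(X : ℝ[X]), C t * X] i)) = ![s, t * s] := by
    funext i
    fin_cases i <;> simp
  rw [h1, MvPolynomial.eval₂_id, h2]

open Pool.Agent.Pack in
/-- Coefficient array of an enumerating polynomial of degree at least three. -/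
theorem exists_pre {α : ℝ} (hα : 0 < α) {f : MvPolynomial (Fin 2) ℝ} (hf : Enumerates f α)
    (hdeg : 3 ≤ f.totalDegree) : ∃ c : ℕ → ℕ → ℝ, Pre f.totalDegree c α ∧
      ∀ x y : ℝ, ev f.totalDegree c x y = MvPolynomial.eval ![x, y] f := by
  classical
  have hex : ∃ d : ℕ, IsP d fun x y => MvPolynomial.eval ![x, y] f := by
    refine ⟨f.totalDegree, (IsP.of_mvPolynomial f le_rfl 1 0 0 1).congr fun x y => ?_⟩
    simp
  obtain ⟨hP, hmin⟩ : (IsP (Nat.find hex) fun x y => MvPolynomial.eval ![x, y] f) ∧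
      ∀ m < Nat.find hex, ¬ IsP m fun x y => MvPolynomial.eval ![x, y] f :=
    ⟨Nat.find_spec hex, fun m hm => Nat.find_min hex hm⟩
  have hle1 : f.totalDegree ≤ Nat.find hex := totalDegree_le_of_isP f hP
  have hle2 : Nat.find hex ≤ f.totalDegree := by
    refine Nat.find_min' hex ((IsP.of_mvPolynomial f le_rfl 1 0 0 1).congr fun x y => ?_)
    simp
  have hd : Nat.find hex = f.totalDegree := le_antisymm hle2 hle1
  rw [hd] at hP hmin
  obtain ⟨c, hc, hce⟩ := hP
  have hval : ∀ v : ℤ × ℤ, ev f.totalDegree c v.1 v.2 =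
      MvPolynomial.eval ![(v.1 : ℝ), (v.2 : ℝ)] f := fun v => hce v.1 v.2
  have hsec : Sec α = sector α := rfl
  have htop : top f.totalDegree c ≠ 0 := by
    intro h0
    exact hmin (f.totalDegree - 1) (by omega) ((IsP.of_top_eq_zero (by omega) hc h0).congr hce)
  refine ⟨c, ⟨hc, hdeg, hα, htop, ?_, ?_, ?_⟩, hce⟩
  · intro v hv
    obtain ⟨m, hm⟩ := hf.mapsTo (hsec ▸ hv)
    exact ⟨m, by rw [hval]; exact hm.symm⟩
  · intro v hv w hw hvw
    rw [hval, hval] at hvw
    exact hf.injOn (hsec ▸ hv) (hsec ▸ hw) hvw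
  · intro m
    obtain ⟨v, hv, hvm⟩ := hf.surjOn ⟨m, rfl⟩
    exact ⟨v, hv, by rw [hval]; exact hvm⟩

open Pool.Agent.Pack in
/-- Let `α > 0` be real and let `f` be a real polynomial of total degree at least three that
enumerates `P_α`.
(1) `f` does not grow linearly: for all reals `c > 0` and `C` there is a lattice point `(x, y)` of
`P_α` with `f(x, y) < c x - C`.
(2) There is a ray `y = t x`, `0 ≤ t ≤ α`, of the closed sector along which the degree of `f`
drops by at least two, that is, on which the two homogeneous parts of `f` of highest degrees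
both vanish. -/
theorem result : ∀ (α : ℝ), 0 < α → ∀ f : MvPolynomial (Fin 2) ℝ, Enumerates f α →
    3 ≤ f.totalDegree →
      (∀ c C : ℝ, 0 < c →
        ∃ v ∈ sector α, MvPolynomial.eval ![(v.1 : ℝ), (v.2 : ℝ)] f < c * (v.1 : ℝ) - C) ∧
      (∃ t : ℝ, 0 ≤ t ∧ t ≤ α ∧ (alongRay f t).natDegree + 2 ≤ f.totalDegree) := by
  classical
  intro α hα f hf hdeg
  obtain ⟨c, hpre, hce⟩ := exists_pre hα hf hdeg
  refine ⟨fun c₀ C₀ hc₀ => ?_, ?_⟩
  · by_contra hcon
    push Not at hcon
    have hG : Glob f.totalDegree c α c₀ C₀ := by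
      refine ⟨hpre, hc₀, fun v hv => ?_⟩
      rw [hce]
      exact hcon v hv
    exact hG.false_of
  · obtain ⟨t, ht0, htα, h1, h2⟩ := hpre.common_zero
    refine ⟨t, ht0, htα, ?_⟩
    have h3 : alongRay f t = ∑ k ∈ Finset.range (f.totalDegree + 1),
        C ((top k c).eval t) * X ^ k := by
      refine Polynomial.funext fun s => ?_
      rw [alongRay_eval, ← hce, ev_ray _ hpre.hc, eval_finsetSum]
      refine Finset.sum_congr rfl fun k _ => ?_
      simp
    have h4 : (alongRay f t).natDegree ≤ f.totalDegree - 2 := by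
      rw [natDegree_le_iff_coeff_eq_zero]
      intro N hN
      rw [h3, finsetSum_coeff]
      refine Finset.sum_eq_zero fun k hk => ?_
      rw [coeff_C_mul, coeff_X_pow]
      split_ifs with h5
      · subst h5
        rw [Finset.mem_range] at hk
        have h6 : N = f.totalDegree ∨ N = f.totalDegree - 1 := by omega
        rcases h6 with h6 | h6
        · rw [h6, h1, zero_mul]
        · rw [h6, h2, zero_mul]
      · rw [mul_zero]
    omega

end Pool.Agent.Results.MP_211e2c_nt.LinearGrowth
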