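import Pool.Agent.Pack.Grow3

/-!
# MP_211e2c_nt: no enumerating polynomials of degree three or four

`sector α` is the set `P_α` of lattice points `(x, y)` with `x ≥ 0` and `0 ≤ y ≤ α x`, and
`Enumerates f α` says that the real polynomial `f` maps `P_α` bijectively onto the set of
nonnegative integers.
-/

set_option autoImplicit false

open Polynomial Filter

namespace Pool.Agent.Results.MP_211e2c_nt.NoCubicQuartic

/-- The lattice points of the sector between the positive `x`-axis and the line `y = α x`. -/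
def sector (α : ℝ) : Set (ℤ × ℤ) :=
  {v | 0 ≤ v.1 ∧ 0 ≤ v.2 ∧ (v.2 : ℝ) ≤ α * (v.1 : ℝ)}

/-- The polynomial `f` restricts to a bijection of `P_α` onto the nonnegative integers. -/
def Enumerates (f : MvPolynomial (Fin 2) ℝ) (α : ℝ) : Prop :=
  Set.BijOn (fun v : ℤ × ℤ => MvPolynomial.eval ![(v.1 : ℝ), (v.2 : ℝ)] f) (sector α)
    (Set.range fun m : ℕ => (m : ℝ))

open Pool.Agent.Pack in
/-- Let `α > 0` be rational, or let `α > 0` be a real number that is not a root of a nonzero
polynomial of degree at most four with rational coefficients. Then no real polynomial of total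
degree three or four enumerates `P_α`. -/
theorem result : ∀ (α : ℝ), 0 < α →
    ((∃ r : ℚ, (r : ℝ) = α) ∨ ∀ q : ℚ[X], q ≠ 0 → q.natDegree ≤ 4 → aeval α q ≠ 0) →
    ∀ f : MvPolynomial (Fin 2) ℝ, (f.totalDegree = 3 ∨ f.totalDegree = 4) →
      ¬ Enumerates f α := by
  classical
  intro α hα hcase f hdeg hf
  have hex : ∃ d : ℕ, IsP d fun x y => MvPolynomial.eval ![x, y] f := by
    refine ⟨f.totalDegree, (IsP.of_mvPolynomial f le_rfl 1 0 0 1).congr fun x y => ?_⟩
    simp
  obtain ⟨hP, hmin⟩ : (IsP (Nat.find hex) fun x y => MvPolynomial.eval ![x, y] f) ∧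
      ∀ m < Nat.find hex, ¬ IsP m fun x y => MvPolynomial.eval ![x, y] f :=
    ⟨Nat.find_spec hex, fun m hm => Nat.find_min hex hm⟩
  have hle1 : f.totalDegree ≤ Nat.find hex := totalDegree_le_of_isP f hP
  have hle2 : Nat.find hex ≤ f.totalDegree := by
    refine Nat.find_min' hex ((IsP.of_mvPolynomial f le_rfl 1 0 0 1).congr fun x y => ?_)
    simp
  have hd3 : 3 ≤ Nat.find hex := by omega
  have hd4 : Nat.find hex ≤ 4 := by omega
  set d := Nat.find hex with hd
  obtain ⟨c, hc, hce⟩ := hP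
  have hval : ∀ v : ℤ × ℤ, ev d c v.1 v.2 = MvPolynomial.eval ![(v.1 : ℝ), (v.2 : ℝ)] f :=
    fun v => hce v.1 v.2
  have hsec : Sec α = sector α := rfl
  have htop : top d c ≠ 0 := by
    intro h0
    exact hmin (d - 1) (by omega) ((IsP.of_top_eq_zero (by omega) hc h0).congr hce)
  have hpre : Pre d c α := by
    refine ⟨hc, hd3, hα, htop, ?_, ?_, ?_⟩
    · intro v hv
      obtain ⟨m, hm⟩ := hf.mapsTo (hsec ▸ hv)
      exact ⟨m, by rw [hval]; exact hm.symm⟩
    · intro v hv w hw hvw
      rw [hval, hval] at hvw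
      exact hf.injOn (hsec ▸ hv) (hsec ▸ hw) hvw
    · intro m
      obtain ⟨v, hv, hvm⟩ := hf.surjOn ⟨m, rfl⟩
      exact ⟨v, hv, by rw [hval]; exact hvm⟩
  refine hpre.false_of_deg_le_four hd4 fun hzero hirr => ?_
  rcases hcase with ⟨r, hr⟩ | hno
  · exact hirr ⟨r, hr⟩
  · obtain ⟨q, hq⟩ := hpre.top_rat
    have hq0 : q ≠ 0 := by
      rintro rfl
      rw [Polynomial.map_zero] at hq
      exact htop hq.symm
    refine hno q hq0 ?_ ?_
    · rw [← natDegree_map (algebraMap ℚ ℝ), hq]
      exact (top_natDegree_le d c).trans hd4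
    · rw [aeval_def, ← eval_map, hq]
      exact hzero

end Pool.Agent.Results.MP_211e2c_nt.NoCubicQuartic
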